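import Mathlib
import Pool.Agent.H576.CR.Stm

/-! TASK ALG of project CR (helper576): a Golod-Shafarevich type inequality. -/

open Finset Module
open Pool.Agent.H576.CR

namespace Pool.Agent.H795

namespace CRALG

variable {n N : ℕ}

/-- the derivations -/
def pd (i : Fin n) : Module.End ℂ (Finset (Fin n) → ℂ) where
  toFun Ψ T := if i ∈ T then 0 else Ψ (insert i T)
  map_add' x y := by
    funext T
    simp only [Pi.add_apply]
    split_ifs <;> simp
  map_smul' c x := by
    funext T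
    simp only [Pi.smul_apply, RingHom.id_apply, smul_eq_mul]
    split_ifs <;> simp

theorem pd_apply (i : Fin n) (Ψ : Finset (Fin n) → ℂ) (T : Finset (Fin n)) :
    pd i Ψ T = if i ∈ T then 0 else Ψ (insert i T) := rfl

theorem pd_comm (i j : Fin n) : Commute (pd i) (pd j) := by
  unfold Commute SemiconjBy
  apply LinearMap.ext
  intro Ψ
  funext T
  rw [Module.End.mul_apply, Module.End.mul_apply, pd_apply, pd_apply, pd_apply, pd_apply]
  by_cases hij : i = j
  · subst hij
    rfl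
  · have hji : ¬ j = i := fun h => hij h.symm
    by_cases hi : i ∈ T <;> by_cases hj : j ∈ T <;>
      simp [hi, hj, hij, hji, Finset.insert_comm]

/-- the operator of `G` -/
noncomputable def op (G : Fin n → Fin n → ℂ) : Module.End ℂ (Finset (Fin n) → ℂ) :=
  ∑ i, ∑ j, G i j • (pd i * pd j)

theorem op_apply (G : Fin n → Fin n → ℂ) (Ψ : Finset (Fin n) → ℂ) (T : Finset (Fin n)) :
    op G Ψ T = ann G Ψ T := by
  unfold op ann
  rw [LinearMap.sum_apply, Finset.sum_apply]
  refine Finset.sum_congr rfl fun i _ => ?_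
  rw [LinearMap.sum_apply, Finset.sum_apply]
  refine Finset.sum_congr rfl fun j _ => ?_
  rw [LinearMap.smul_apply, Pi.smul_apply, smul_eq_mul, Module.End.mul_apply, pd_apply, pd_apply]
  by_cases hij : i = j
  · subst hij
    by_cases hi : i ∈ T <;> simp [hi]
  · have hji : ¬ j = i := fun h => hij h.symm
    by_cases hi : i ∈ T <;> by_cases hj : j ∈ T <;>
      simp [hi, hj, hij, hji, Finset.insert_comm]

theorem op_comm (G H : Fin n → Fin n → ℂ) : Commute (op G) (op H) := by
  unfold op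
  refine Commute.sum_left _ _ _ fun i _ => Commute.sum_left _ _ _ fun j _ => ?_
  refine Commute.sum_right _ _ _ fun i' _ => Commute.sum_right _ _ _ fun j' _ => ?_
  refine Commute.smul_left (Commute.smul_right ?_ _) _
  exact ((pd_comm i i').mul_right (pd_comm i j')).mul_left
    ((pd_comm j i').mul_right (pd_comm j j'))

/-- the functions supported on the sets with `d` elements -/
def VV (n d : ℕ) : Submodule ℂ (Finset (Fin n) → ℂ) where
  carrier := {Ψ | ∀ S, S.card ≠ d → Ψ S = 0}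
  add_mem' {a b} ha hb S hS := by
    rw [Pi.add_apply, ha S hS, hb S hS, add_zero]
  zero_mem' S _ := rfl
  smul_mem' c x hx S hS := by
    rw [Pi.smul_apply, hx S hS, smul_zero]

theorem mem_VV {d : ℕ} {Ψ : Finset (Fin n) → ℂ} : Ψ ∈ VV n d ↔ ∀ S, S.card ≠ d → Ψ S = 0 :=
  Iff.rfl

theorem finrank_VV (n d : ℕ) : finrank ℂ (VV n d) = n.choose d := by
  classical
  have e : VV n d ≃ₗ[ℂ] ({S : Finset (Fin n) // S.card = d} → ℂ) :=
    { toFun := fun Ψ S => Ψ.1 S.1
      map_add' := fun x y => rfl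
      map_smul' := fun c x => rfl
      invFun := fun f => ⟨fun S => if h : S.card = d then f ⟨S, h⟩ else 0, fun S hS => by
        simp [hS]⟩
      left_inv := fun Ψ => by
        apply Subtype.ext
        funext S
        by_cases h : S.card = d
        · simp [h]
        · simp only [h, dif_neg, not_false_eq_true]
          exact (Ψ.2 S h).symm
      right_inv := fun f => by
        funext S
        simp [S.2] }
  rw [e.finrank_eq, Module.finrank_fintype_fun_eq_card, Fintype.card_finset_len, Fintype.card_fin]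

theorem pd_mem {d : ℕ} (i : Fin n) {Ψ : Finset (Fin n) → ℂ} (h : Ψ ∈ VV n (d + 1)) :
    pd i Ψ ∈ VV n d := by
  intro S hS
  rw [pd_apply]
  split_ifs with hi
  · rfl
  · apply h
    rw [Finset.card_insert_of_notMem hi]
    omega

theorem pd_mem0 (i : Fin n) {Ψ : Finset (Fin n) → ℂ} (h : Ψ ∈ VV n 0) :
    pd i Ψ = 0 := by
  funext S
  rw [pd_apply]
  split_ifs with hi
  · rfl
  · apply h
    rw [Finset.card_insert_of_notMem hi]
    omega

theorem op_mem {d : ℕ} (G : Fin n → Fin n → ℂ) {Ψ : Finset (Fin n) → ℂ}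
    (h : Ψ ∈ VV n (d + 2)) : op G Ψ ∈ VV n d := by
  unfold op
  rw [LinearMap.sum_apply]
  refine Submodule.sum_mem _ fun i _ => ?_
  rw [LinearMap.sum_apply]
  refine Submodule.sum_mem _ fun j _ => ?_
  rw [LinearMap.smul_apply]
  exact Submodule.smul_mem _ _ (pd_mem i (pd_mem j h))

theorem op_mem0 {d : ℕ} (hd : d < 2) (G : Fin n → Fin n → ℂ) {Ψ : Finset (Fin n) → ℂ}
    (h : Ψ ∈ VV n d) : op G Ψ = 0 := by
  unfold op
  rw [LinearMap.sum_apply]
  refine Finset.sum_eq_zero fun i _ => ?_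
  rw [LinearMap.sum_apply]
  refine Finset.sum_eq_zero fun j _ => ?_
  rw [LinearMap.smul_apply, Module.End.mul_apply]
  have h1 : pd i (pd j Ψ) = 0 := by
    rcases d with _ | d
    · rw [pd_mem0 j h, map_zero]
    · have hd0 : d = 0 := by omega
      subst hd0
      exact pd_mem0 i (pd_mem j h)
  rw [h1, smul_zero]

/-- the common kernels -/
def KK (G : Fin N → Fin n → Fin n → ℂ) (k d : ℕ) : Submodule ℂ (Finset (Fin n) → ℂ) where
  carrier := {Ψ | Ψ ∈ VV n d ∧ ∀ i : Fin N, i.val < k → op (G i) Ψ = 0}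
  add_mem' {a b} ha hb := ⟨Submodule.add_mem _ ha.1 hb.1, fun i hi => by
    rw [map_add, ha.2 i hi, hb.2 i hi, add_zero]⟩
  zero_mem' := ⟨Submodule.zero_mem _, fun i _ => map_zero _⟩
  smul_mem' c x hx := ⟨Submodule.smul_mem _ _ hx.1, fun i hi => by
    rw [map_smul, hx.2 i hi, smul_zero]⟩

theorem mem_KK {G : Fin N → Fin n → Fin n → ℂ} {k d : ℕ} {Ψ : Finset (Fin n) → ℂ} :
    Ψ ∈ KK G k d ↔ Ψ ∈ VV n d ∧ ∀ i : Fin N, i.val < k → op (G i) Ψ = 0 := Iff.rfl

theorem KK_zero (G : Fin N → Fin n → Fin n → ℂ) (d : ℕ) : KK G 0 d = VV n d := by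
  ext Ψ
  rw [mem_KK]
  exact ⟨fun h => h.1, fun h => ⟨h, fun i hi => absurd hi (Nat.not_lt_zero _)⟩⟩

theorem KK_le (G : Fin N → Fin n → Fin n → ℂ) (k d : ℕ) : finrank ℂ (KK G k d) ≤ n.choose d := by
  rw [← finrank_VV]
  exact Submodule.finrank_mono fun Ψ h => h.1

theorem KK_step2 (G : Fin N → Fin n → Fin n → ℂ) {k : ℕ} (hk : k < N) (d : ℕ) :
    finrank ℂ (KK G k (d + 2)) ≤ finrank ℂ (KK G (k + 1) (d + 2)) + finrank ℂ (KK G k d) := by
  obtain ⟨f, hf⟩ : ∃ f : KK G k (d + 2) →ₗ[ℂ] (Finset (Fin n) → ℂ),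
      f = (op (G ⟨k, hk⟩)).domRestrict (KK G k (d + 2)) := ⟨_, rfl⟩
  have hf' : ∀ x, f x = op (G ⟨k, hk⟩) x.1 := fun x => by rw [hf]; rfl
  have h1 := LinearMap.finrank_range_add_finrank_ker f
  have h2 : finrank ℂ (LinearMap.range f) ≤ finrank ℂ (KK G k d) := by
    apply Submodule.finrank_mono
    rintro _ ⟨x, rfl⟩
    rw [hf']
    refine ⟨op_mem _ x.2.1, fun i hi => ?_⟩
    rw [← Module.End.mul_apply, (op_comm (G i) (G ⟨k, hk⟩)).eq, Module.End.mul_apply,
      x.2.2 i hi, map_zero]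
  have h3 : finrank ℂ (LinearMap.ker f) ≤ finrank ℂ (KK G (k + 1) (d + 2)) := by
    rw [← Submodule.finrank_map_subtype_eq (KK G k (d + 2)) (LinearMap.ker f)]
    apply Submodule.finrank_mono
    rintro _ ⟨x, hx, rfl⟩
    have hx' : f x = 0 := hx
    rw [hf'] at hx'
    refine ⟨x.2.1, fun i hi => ?_⟩
    rcases Nat.lt_succ_iff_lt_or_eq.1 hi with h | h
    · exact x.2.2 i h
    · have : i = ⟨k, hk⟩ := Fin.ext h
      rw [this]
      exact hx'
  omega

theorem KK_step0 (G : Fin N → Fin n → Fin n → ℂ) (k : ℕ) {d : ℕ} (hd : d < 2) :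
    finrank ℂ (KK G k d) ≤ finrank ℂ (KK G (k + 1) d) := by
  apply Submodule.finrank_mono
  intro Ψ h
  exact ⟨h.1, fun i _ => op_mem0 hd _ h.1⟩

theorem shift_sum (a : ℕ → ℝ) (ha : ∀ d, 0 ≤ a d) (t : ℝ) (ht : 0 ≤ t) (m : ℕ) :
    ∑ d ∈ range m, (if d < 2 then 0 else a (d - 2)) * t ^ d ≤ t ^ 2 * ∑ d ∈ range m, a d * t ^ d := by
  have hnn : ∀ s : Finset ℕ, 0 ≤ ∑ d ∈ s, a d * t ^ d := fun s =>
    Finset.sum_nonneg fun d _ => mul_nonneg (ha d) (pow_nonneg ht d)
  rcases m with _ | _ | m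
  · simp
  · simp only [zero_add, range_one, sum_singleton]
    simpa using mul_nonneg (pow_nonneg ht 2) (ha 0)
  · rw [Finset.sum_range_succ', Finset.sum_range_succ']
    have h1 : ∑ k ∈ range m, (if k + 1 + 1 < 2 then 0 else a (k + 1 + 1 - 2)) * t ^ (k + 1 + 1) =
        t ^ 2 * ∑ d ∈ range m, a d * t ^ d := by
      rw [Finset.mul_sum]
      refine Finset.sum_congr rfl fun d _ => ?_
      rw [if_neg (by omega)]
      have : d + 1 + 1 - 2 = d := by omega
      rw [this]
      ring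
    rw [h1]
    simp only [zero_add, Nat.one_lt_ofNat, if_true, Nat.ofNat_pos, zero_mul, add_zero]
    apply mul_le_mul_of_nonneg_left _ (pow_nonneg ht 2)
    apply Finset.sum_le_sum_of_subset_of_nonneg
    · intro d hd
      rw [Finset.mem_range] at hd ⊢
      omega
    · intro d _ _
      exact mul_nonneg (ha d) (pow_nonneg ht d)

end CRALG

open CRALG

theorem cr_alg : S_ALG := by
  intro n N L D t ht0 ht1 hDL hlt G
  by_contra hcon
  have hbot : ∀ d, D ≤ d → d ≤ L → finrank ℂ (KK G N d) = 0 := by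
    intro d hd1 hd2
    by_contra hne
    apply hcon
    refine ⟨d, hd1, hd2, ?_⟩
    have h1 : KK G N d ≠ ⊥ := by
      intro h
      rw [h, finrank_bot] at hne
      exact hne rfl
    obtain ⟨Ψ, hΨ, hΨ0⟩ := Submodule.exists_mem_ne_zero_of_ne_bot h1
    refine ⟨Ψ, ?_, hΨ.1, ?_⟩
    · by_contra hall
      push Not at hall
      exact hΨ0 (funext hall)
    · intro k T
      rw [← op_apply, hΨ.2 k k.2]
      rfl
  have hS : ∀ k, k ≤ N → (1 - t ^ 2) ^ k * ∑ d ∈ range (L + 1), (n.choose d : ℝ) * t ^ d ≤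
      ∑ d ∈ range (L + 1), (finrank ℂ (KK G k d) : ℝ) * t ^ d := by
    intro k
    induction k with
    | zero =>
      intro _
      rw [pow_zero, one_mul]
      refine le_of_eq (Finset.sum_congr rfl fun d _ => ?_)
      rw [KK_zero, finrank_VV]
    | succ k ih =>
      intro hk
      have h1 := ih (by omega)
      have h2 := shift_sum (fun d => (finrank ℂ (KK G k d) : ℝ)) (fun d => Nat.cast_nonneg _) t
        ht0.le (L + 1)
      have h3 : ∑ d ∈ range (L + 1), (finrank ℂ (KK G k d) : ℝ) * t ^ d ≤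
          ∑ d ∈ range (L + 1), (finrank ℂ (KK G (k + 1) d) : ℝ) * t ^ d +
          ∑ d ∈ range (L + 1), (if d < 2 then 0 else (finrank ℂ (KK G k (d - 2)) : ℝ)) * t ^ d := by
        rw [← Finset.sum_add_distrib]
        refine Finset.sum_le_sum fun d _ => ?_
        rw [← add_mul]
        apply mul_le_mul_of_nonneg_right _ (pow_nonneg ht0.le d)
        by_cases hd : d < 2
        · rw [if_pos hd, add_zero]
          exact_mod_cast KK_step0 G k hd
        · rw [if_neg hd]
          obtain ⟨e, rfl⟩ : ∃ e, d = e + 2 := ⟨d - 2, by omega⟩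
          rw [Nat.add_sub_cancel]
          exact_mod_cast KK_step2 G (by omega : k < N) e
      have h4 : 0 ≤ 1 - t ^ 2 := by nlinarith
      have h5 := mul_le_mul_of_nonneg_left h1 h4
      calc (1 - t ^ 2) ^ (k + 1) * ∑ d ∈ range (L + 1), (n.choose d : ℝ) * t ^ d
          = (1 - t ^ 2) * ((1 - t ^ 2) ^ k * ∑ d ∈ range (L + 1), (n.choose d : ℝ) * t ^ d) := by
            ring
        _ ≤ (1 - t ^ 2) * ∑ d ∈ range (L + 1), (finrank ℂ (KK G k d) : ℝ) * t ^ d := h5
        _ ≤ _ := by linarith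
  have h1 := hS N le_rfl
  have hpow : 0 ≤ (1 - t ^ 2) ^ N := pow_nonneg (by nlinarith) _
  have h2 : (n.choose L : ℝ) * t ^ L ≤ ∑ d ∈ range (L + 1), (n.choose d : ℝ) * t ^ d :=
    Finset.single_le_sum (f := fun d => (n.choose d : ℝ) * t ^ d)
      (fun d _ => mul_nonneg (Nat.cast_nonneg _) (pow_nonneg ht0.le d))
      (Finset.mem_range.2 (Nat.lt_succ_self L))
  have h3 : ∑ d ∈ range (L + 1), (finrank ℂ (KK G N d) : ℝ) * t ^ d ≤
      ∑ d ∈ range D, (n.choose d : ℝ) * t ^ d := by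
    have h4 : ∑ d ∈ range (L + 1), (finrank ℂ (KK G N d) : ℝ) * t ^ d =
        ∑ d ∈ range D, (finrank ℂ (KK G N d) : ℝ) * t ^ d := by
      symm
      apply Finset.sum_subset
      · intro d hd
        rw [Finset.mem_range] at hd ⊢
        omega
      · intro d hd hd'
        rw [Finset.mem_range] at hd hd'
        rw [hbot d (by omega) (by omega), Nat.cast_zero, zero_mul]
    rw [h4]
    refine Finset.sum_le_sum fun d _ => ?_
    apply mul_le_mul_of_nonneg_right _ (pow_nonneg ht0.le d)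
    exact_mod_cast KK_le G N d
  have h5 := mul_le_mul_of_nonneg_left h2 hpow
  linarith

end Pool.Agent.H795
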