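import Pool.Agent.H465.OC.StmB
import Pool.Graph.R_pool_sql_team_seeded_3997aac3.Q279.SC.J.COUNT
import Pool.Graph.R_seed8.H341R2.WeilSharp

/-!
# Project OC, task B13: Hasse's bound for integral Weierstrass equations

From the bound of Weil for quadratic character sums (library, `H341R2.Sharp.weil_sharp`): the number
of affine points of `W` over `𝔽_p` is `∑_x (1 + χ (4 x³ + b₂ x² + 2 b₄ x + b₆))`.
-/

set_option autoImplicit false

namespace Pool.Agent.H795.OCHasseS

open Finset Pool.Agent.Q279.SC Pool.Agent.Q279.SC.JCOUNT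

/-- the number of `y` for one `x` -/
theorem card_yZ {p : ℕ} [Fact p.Prime] (hp : 5 ≤ p) (b c : ZMod p) :
    ((Nat.card {y : ZMod p // y ^ 2 + b * y = c} : ℕ) : ℤ) =
      quadraticChar (ZMod p) (b ^ 2 + 4 * c) + 1 := by
  have hF : ringChar (ZMod p) ≠ 2 := by rw [ZMod.ringChar_zmod_n]; omega
  have h2 : (2 : ZMod p) ≠ 0 := Ring.two_ne_zero hF
  have e : {y : ZMod p // y ^ 2 + b * y = c} ≃ {z : ZMod p // z ^ 2 = b ^ 2 + 4 * c} :=
    { toFun := fun y => ⟨2 * y.1 + b, by
        have := y.2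
        linear_combination 4 * this⟩
      invFun := fun z => ⟨(z.1 - b) / 2, by
        have := z.2
        field_simp
        linear_combination this⟩
      left_inv := fun y => by
        apply Subtype.ext
        simp only
        field_simp
        ring
      right_inv := fun z => by
        apply Subtype.ext
        simp only
        field_simp
        ring }
  rw [Nat.card_congr e]
  have h1 := quadraticChar_card_sqrts hF (b ^ 2 + 4 * c)
  have h4 : Nat.card {z : ZMod p // z ^ 2 = b ^ 2 + 4 * c} =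
      {x : ZMod p | x ^ 2 = b ^ 2 + 4 * c}.toFinset.card := by
    rw [Set.toFinset_card, Nat.card_eq_fintype_card]
    rfl
  rw [h4, h1]

/-- the cubic polynomial of the points of order two -/
noncomputable def psi {F : Type} [Field F] (V : WeierstrassCurve F) : Polynomial F :=
  Polynomial.C 4 * Polynomial.X ^ 3 + Polynomial.C V.b₂ * Polynomial.X ^ 2 +
    Polynomial.C (2 * V.b₄) * Polynomial.X + Polynomial.C V.b₆

theorem psi_eval {F : Type} [Field F] (V : WeierstrassCurve F) (x : F) :
    (psi V).eval x = (V.a₁ * x + V.a₃) ^ 2 + 4 * (x ^ 3 + V.a₂ * x ^ 2 + V.a₄ * x + V.a₆) := by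
  unfold psi WeierstrassCurve.b₂ WeierstrassCurve.b₄ WeierstrassCurve.b₆
  simp only [Polynomial.eval_add, Polynomial.eval_mul, Polynomial.eval_C, Polynomial.eval_pow,
    Polynomial.eval_X]
  ring

theorem main : Pool.Agent.H465.OC.HasseS := by
  intro p hpp hp W hD
  have : Fact p.Prime := ⟨hpp⟩
  have hF : ringChar (ZMod p) ≠ 2 := by rw [ZMod.ringChar_zmod_n]; omega
  have h2 : (2 : ZMod p) ≠ 0 := Ring.two_ne_zero hF
  have h4 : (4 : ZMod p) ≠ 0 := by
    have : (4 : ZMod p) = 2 * 2 := by norm_num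
    rw [this]
    exact mul_ne_zero h2 h2
  obtain ⟨V, hV⟩ : ∃ V, V = W.map (Int.castRingHom (ZMod p)) := ⟨_, rfl⟩
  have hVD : V.Δ ≠ 0 := by
    rw [hV, WeierstrassCurve.map_Δ]
    intro h0
    exact hD ((ZMod.intCast_zmod_eq_zero_iff_dvd _ _).1 h0)
  -- the number of affine points
  have hcard : ((Nat.card {xy : ZMod p × ZMod p // xy.2 ^ 2 + V.a₁ * xy.1 * xy.2 +
      V.a₃ * xy.2 = xy.1 ^ 3 + V.a₂ * xy.1 ^ 2 + V.a₄ * xy.1 + V.a₆} : ℕ) : ℤ) =
      ∑ x : ZMod p, quadraticChar (ZMod p) ((psi V).eval x) + p := by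
    have e : {xy : ZMod p × ZMod p // xy.2 ^ 2 + V.a₁ * xy.1 * xy.2 +
        V.a₃ * xy.2 = xy.1 ^ 3 + V.a₂ * xy.1 ^ 2 + V.a₄ * xy.1 + V.a₆} ≃
        Σ x : ZMod p, {y : ZMod p // y ^ 2 + (V.a₁ * x + V.a₃) * y =
          x ^ 3 + V.a₂ * x ^ 2 + V.a₄ * x + V.a₆} :=
      { toFun := fun P => ⟨P.1.1, P.1.2, by
          have := P.2
          linear_combination this⟩
        invFun := fun P => ⟨(P.1, P.2.1), by
          have := P.2.2
          simp only
          linear_combination this⟩
        left_inv := fun P => rfl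
        right_inv := fun P => rfl }
    rw [Nat.card_congr e, Nat.card_sigma]
    push_cast
    rw [Finset.sum_congr rfl fun x _ => card_yZ hp (V.a₁ * x + V.a₃) _, Finset.sum_add_distrib]
    have e1 : ∑ _x : ZMod p, (1 : ℤ) = p := by
      rw [Finset.sum_const, Finset.card_univ, ZMod.card, nsmul_eq_mul, mul_one]
    rw [e1]
    refine congrArg (· + (p : ℤ)) (Finset.sum_congr rfl fun x _ => ?_)
    rw [psi_eval]
  have hap : ap W p = -∑ x : ZMod p, quadraticChar (ZMod p) ((psi V).eval x) := by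
    unfold ap
    rw [← hV, card_pt V hVD]
    push_cast
    rw [hcard]
    ring
  have hdeg : (psi V).natDegree = 3 := by
    unfold psi
    compute_degree!
  have hw := Pool.Agent.H341R2.Sharp.weil_sharp hF (psi V) (by omega) (by
    intro c h hq
    rcases eq_or_ne c 0 with rfl | hc
    · rw [Polynomial.C_0, zero_mul] at hq
      rw [hq] at hdeg
      simp at hdeg
    · have := congrArg Polynomial.natDegree hq
      rw [hdeg, Polynomial.natDegree_C_mul hc, Polynomial.natDegree_pow] at this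
      omega)
  rw [hdeg, ZMod.card] at hw
  have h5 : |((ap W p : ℤ) : ℝ)| ≤ 2 * Real.sqrt p := by
    rw [hap]
    push_cast
    rw [abs_neg]
    refine hw.trans (le_of_eq ?_)
    norm_num
  have h6 : ((ap W p : ℤ) : ℝ) ^ 2 ≤ 4 * p := by
    rw [← sq_abs]
    calc |((ap W p : ℤ) : ℝ)| ^ 2 ≤ (2 * Real.sqrt p) ^ 2 :=
          pow_le_pow_left₀ (abs_nonneg _) h5 2
      _ = 4 * p := by
          rw [mul_pow, Real.sq_sqrt (Nat.cast_nonneg p)]
          norm_num
  exact_mod_cast h6

end Pool.Agent.H795.OCHasseS
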